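import Mathlib

/-!
# The constants `g(G)` and `s(G)`
-/

set_option autoImplicit false

namespace Pool.Agent.H21.EGZI

/-- the group `C_n^r` -/
abbrev C (n r : ℕ) : Type := Fin r → ZMod n

/-- `g` is the least integer such that every subset of `G` with at least `g` elements contains
exp(G) distinct elements with sum zero -/
def IsHarborth (G : Type) [AddCommGroup G] (g : ℕ) : Prop :=
  IsLeast {l : ℕ | ∀ S : Finset G, l ≤ S.card →
    ∃ T ⊆ S, T.card = AddMonoid.exponent G ∧ ∑ x ∈ T, x = 0} g

/-- `s` is the least integer such that every sequence (multiset) over `G` with at least `s` terms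
has a zero-sum subsequence of length exp(G) -/
def IsEGZ (G : Type) [AddCommGroup G] (s : ℕ) : Prop :=
  IsLeast {l : ℕ | ∀ S : Multiset G, l ≤ Multiset.card S →
    ∃ T ≤ S, Multiset.card T = AddMonoid.exponent G ∧ T.sum = 0} s

end Pool.Agent.H21.EGZI
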