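import Mathlib
import Pool.Agent.H29.EGZ.Trans
import Pool.Agent.H21.EGZI.Defs

/-!
# From the group `C_9^5` to the groups `C_{3^k}^5`
-/

set_option autoImplicit false

namespace Pool.Agent.H21.EGZI

open Finset Pool.Agent.H29.EGZ

/-! ### the exponent -/

theorem exponent_C (n : ℕ) : AddMonoid.exponent (C n 5) = n := by
  apply Nat.dvd_antisymm
  · apply AddMonoid.exponent_dvd_of_forall_nsmul_eq_zero
    intro w
    funext i
    rw [Pi.smul_apply, nsmul_eq_mul, ZMod.natCast_self, zero_mul]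
    rfl
  · have h1 := AddMonoid.exponent_nsmul_eq_zero (fun _ : Fin 5 => (1 : ZMod n))
    have h2 := congrFun h1 0
    simp only [Pi.smul_apply, nsmul_eq_mul, mul_one, Pi.zero_apply] at h2
    exact (ZMod.natCast_eq_zero_iff _ _).mp h2

/-! ### the standard cap is complete -/

theorem sum_of_zs {a b c : ℕ} (h : zs a b c = true) : dec a + dec b + dec c = 0 := by
  simp only [zs, Bool.and_eq_true, beq_iff_eq] at h
  obtain ⟨⟨⟨⟨h0, h1⟩, h2⟩, h3⟩, h4⟩ := h
  funext i
  simp only [dec, Pi.add_apply, Pi.zero_apply]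
  have key : ((a / 3 ^ (i : ℕ) % 3 + b / 3 ^ (i : ℕ) % 3 + c / 3 ^ (i : ℕ) % 3 : ℕ) : ZMod 3) = 0 := by
    rw [ZMod.natCast_eq_zero_iff]
    apply Nat.dvd_of_mod_eq_zero
    fin_cases i
    · simpa using h0
    · simpa using h1
    · simpa using h2
    · simpa using h3
    · simpa using h4
  push_cast at key
  exact key

theorem complete_check : (List.range 243).all (fun v => capCodes.contains v ||
    capCodes.any (fun a => capCodes.any (fun b => !(a == b) && !(a == v) && !(b == v) &&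
      zs a b v))) = true := by
  decide +kernel

/-- the code of a point -/
def enc (v : Fin 5 → ZMod 3) : ℕ :=
  (v 0).val + 3 * (v 1).val + 9 * (v 2).val + 27 * (v 3).val + 81 * (v 4).val

theorem enc_lt (v : Fin 5 → ZMod 3) : enc v < 243 := by
  unfold enc
  have h0 := ZMod.val_lt (v 0)
  have h1 := ZMod.val_lt (v 1)
  have h2 := ZMod.val_lt (v 2)
  have h3 := ZMod.val_lt (v 3)
  have h4 := ZMod.val_lt (v 4)
  omega

theorem dec_enc (v : Fin 5 → ZMod 3) : dec (enc v) = v := by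
  have h0 := ZMod.val_lt (v 0)
  have h1 := ZMod.val_lt (v 1)
  have h2 := ZMod.val_lt (v 2)
  have h3 := ZMod.val_lt (v 3)
  have h4 := ZMod.val_lt (v 4)
  funext i
  have k0 : enc v / 1 % 3 = (v 0).val := by unfold enc; omega
  have k1 : enc v / 3 % 3 = (v 1).val := by unfold enc; omega
  have k2 : enc v / 9 % 3 = (v 2).val := by unfold enc; omega
  have k3 : enc v / 27 % 3 = (v 3).val := by unfold enc; omega
  have k4 : enc v / 81 % 3 = (v 4).val := by unfold enc; omega
  have key : enc v / 3 ^ (i : ℕ) % 3 = (v i).val := by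
    fin_cases i
    · exact k0
    · exact k1
    · exact k2
    · exact k3
    · exact k4
  show ((enc v / 3 ^ (i : ℕ) % 3 : ℕ) : ZMod 3) = v i
  rw [key, ZMod.natCast_zmod_val]

theorem dec_enc_inj {a b : ℕ} (ha : a < 243) (hb : b < 243) (h : dec a = dec b) : a = b := by
  have key : ∀ i : Fin 5, a / 3 ^ (i : ℕ) % 3 = b / 3 ^ (i : ℕ) % 3 := by
    intro i
    have h1 := congrFun h i
    simp only [dec] at h1
    have h2 := congrArg ZMod.val h1
    rw [ZMod.val_natCast, ZMod.val_natCast, Nat.mod_mod, Nat.mod_mod] at h2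
    exact h2
  have h0 : a % 3 = b % 3 := by simpa using key 0
  have h1 : a / 3 % 3 = b / 3 % 3 := by simpa using key 1
  have h2 : a / 9 % 3 = b / 9 % 3 := by simpa using key 2
  have h3 : a / 27 % 3 = b / 27 % 3 := by simpa using key 3
  have h4 : a / 81 % 3 = b / 81 % 3 := by simpa using key 4
  omega

theorem capCodes_lt : ∀ a ∈ capCodes, a < 243 := by decide

theorem cap45_complete {D : Finset (Fin 5 → ZMod 3)} (hD : IsCap D) (h : cap45 ⊆ D) :
    D ⊆ cap45 := by
  intro v hv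
  by_contra hv'
  have h1 := List.all_eq_true.mp complete_check (enc v) (List.mem_range.mpr (enc_lt v))
  rw [Bool.or_eq_true] at h1
  rcases h1 with h1 | h1
  · apply hv'
    rw [List.contains_iff_mem] at h1
    rw [cap45, List.mem_toFinset, List.mem_map]
    exact ⟨_, h1, dec_enc v⟩
  · obtain ⟨a, ha, h2⟩ := List.any_eq_true.mp h1
    obtain ⟨b, hb, h3⟩ := List.any_eq_true.mp h2
    simp only [Bool.and_eq_true, Bool.not_eq_true', beq_eq_false_iff_ne, ne_eq] at h3
    obtain ⟨⟨⟨hab, hav⟩, hbv⟩, hz⟩ := h3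
    have hs := sum_of_zs hz
    rw [dec_enc] at hs
    have hadec : dec a ∈ cap45 := by
      rw [cap45, List.mem_toFinset, List.mem_map]
      exact ⟨a, ha, rfl⟩
    have hbdec : dec b ∈ cap45 := by
      rw [cap45, List.mem_toFinset, List.mem_map]
      exact ⟨b, hb, rfl⟩
    have hne : dec a ≠ dec b := fun e =>
      hab (dec_enc_inj (capCodes_lt a ha) (capCodes_lt b hb) e)
    have hnav : dec a ≠ v := fun e => hv' (e ▸ hadec)
    have hnbv : dec b ≠ v := fun e => hv' (e ▸ hbdec)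
    refine hD {dec a, dec b, v} ?_ (Finset.card_eq_three.mpr ⟨_, _, _, hne, hnav, hnbv, rfl⟩) ?_
    · intro w hw
      simp only [Finset.mem_insert, Finset.mem_singleton] at hw
      rcases hw with rfl | rfl | rfl
      · exact h hadec
      · exact h hbdec
      · exact hv
    · rw [Finset.sum_insert (by simp [hne, hnav]), Finset.sum_pair hnbv, ← add_assoc]
      exact hs

/-- if all 45-caps are equivalent to the standard one, caps have at most 45 points -/
theorem cap_le (hu : ∀ D : Finset (Fin 5 → ZMod 3), IsCap D → D.card = 45 →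
    ∃ g : Aff 5, g.img D = cap45) (D : Finset (Fin 5 → ZMod 3)) (hD : IsCap D) : D.card ≤ 45 := by
  by_contra hlt
  push Not at hlt
  obtain ⟨E, hE, hE45⟩ := Finset.exists_subset_card_eq (le_of_lt hlt)
  obtain ⟨g, hg⟩ := hu E (hD.subset hE) hE45
  have h1 : cap45 ⊆ g.img D := by
    rw [← hg]
    intro u hu
    rw [g.mem_img] at hu ⊢
    exact hE hu
  have h2 := Finset.card_le_card (cap45_complete (g.isCap_img hD) h1)
  rw [g.card_img, cap45_card] at h2
  omega

/-! ### triples -/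

theorem three_F3 (w : C 3 5) : 3 • w = 0 := (div3 5).three w

theorem exists_triple (hcap : ∀ D : Finset (C 3 5), IsCap D → D.card ≤ 45)
    {ι : Type} [DecidableEq ι] (g : ι → C 3 5) (K : Finset ι) (hK : 91 ≤ K.card) :
    ∃ T ⊆ K, T.card = 3 ∧ ∑ i ∈ T, g i = 0 := by
  by_contra hno
  push Not at hno
  have h1 : K.card ≤ 2 * 45 := card_free_le (W := C 3 5) (κ := ι) three_F3 hcap K g hno
  omega

theorem exists_triples (hcap : ∀ D : Finset (C 3 5), IsCap D → D.card ≤ 45)
    {ι : Type} [DecidableEq ι] (g : ι → C 3 5) (m : ℕ) :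
    ∀ K : Finset ι, 3 * m + 88 ≤ K.card → ∃ T : Fin m → Finset ι,
      (∀ i, T i ⊆ K ∧ (T i).card = 3 ∧ ∑ j ∈ T i, g j = 0) ∧
        ∀ i j, i ≠ j → Disjoint (T i) (T j) := by
  induction m with
  | zero => exact fun K _ => ⟨fun i => i.elim0, fun i => i.elim0, fun i => i.elim0⟩
  | succ m ih =>
    intro K hK
    obtain ⟨A, hAK, hA3, hA0⟩ := exists_triple hcap g K (by omega)
    obtain ⟨T, hT, hdis⟩ := ih (K \ A) (by
      rw [Finset.card_sdiff_of_subset hAK]
      omega)
    have hA : ∀ i, Disjoint A (T i) := fun i =>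
      Finset.disjoint_of_subset_right (hT i).1 Finset.disjoint_sdiff
    refine ⟨Fin.cons A T, ?_, ?_⟩
    · intro i
      refine Fin.cases ?_ (fun i => ?_) i
      · rw [Fin.cons_zero]
        exact ⟨hAK, hA3, hA0⟩
      · rw [Fin.cons_succ]
        exact ⟨(hT i).1.trans Finset.sdiff_subset, (hT i).2⟩
    · intro i j
      refine Fin.cases ?_ (fun i => ?_) i
      · refine Fin.cases (fun h => absurd rfl h) (fun j _ => ?_) j
        rw [Fin.cons_zero, Fin.cons_succ]
        exact hA j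
      · refine Fin.cases (fun _ => ?_) (fun j h => ?_) j
        · rw [Fin.cons_zero, Fin.cons_succ]
          exact (hA i).symm
        · rw [Fin.cons_succ, Fin.cons_succ]
          exact hdis i j (fun e => h (by rw [e]))

/-! ### multiplication by three -/

theorem mulT_aux (k : ℕ) :
    zmultiplesHom (ZMod (3 ^ (k + 1))) 3 ((3 ^ k : ℕ) : ℤ) = 0 := by
  rw [zmultiplesHom_apply, zsmul_eq_mul]
  have h : ((3 ^ (k + 1) : ℕ) : ZMod (3 ^ (k + 1))) = 0 := ZMod.natCast_self _
  have h2 : (((3 ^ k : ℕ) : ℤ) : ZMod (3 ^ (k + 1))) * 3 =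
      ((3 ^ (k + 1) : ℕ) : ZMod (3 ^ (k + 1))) := by
    rw [Int.cast_natCast, Nat.pow_succ, Nat.cast_mul]
    norm_num
  rw [h2, h]

/-- `x ↦ 3 x` from `ZMod (3^k)` to `ZMod (3^(k+1))` -/
def mulT (k : ℕ) : ZMod (3 ^ k) →+ ZMod (3 ^ (k + 1)) :=
  ZMod.lift (3 ^ k) ⟨zmultiplesHom (ZMod (3 ^ (k + 1))) 3, mulT_aux k⟩

theorem mulT_natCast (k c : ℕ) : mulT k (c : ZMod (3 ^ k)) = ((3 * c : ℕ) : ZMod (3 ^ (k + 1))) := by
  have h := ZMod.lift_coe (3 ^ k) (A := ZMod (3 ^ (k + 1)))
    ⟨zmultiplesHom (ZMod (3 ^ (k + 1))) 3, mulT_aux k⟩ (c : ℤ)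
  rw [Int.cast_natCast] at h
  unfold mulT
  rw [h, zmultiplesHom_apply, zsmul_eq_mul]
  push_cast
  ring

/-- reduction modulo three -/
def redT (k : ℕ) : ZMod (3 ^ (k + 1)) →+* ZMod 3 :=
  ZMod.castHom (dvd_pow_self 3 (Nat.succ_ne_zero k)) (ZMod 3)

theorem exists_mulT (k : ℕ) (a : ZMod (3 ^ (k + 1))) (ha : redT k a = 0) :
    ∃ b, mulT k b = a := by
  have h1 : ((a.val : ℕ) : ZMod (3 ^ (k + 1))) = a := ZMod.natCast_zmod_val a
  have h2 : ((a.val : ℕ) : ZMod 3) = 0 := by
    rw [← ha, ← h1, map_natCast, h1]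
  rw [ZMod.natCast_eq_zero_iff] at h2
  obtain ⟨c, hc⟩ := h2
  refine ⟨(c : ZMod (3 ^ k)), ?_⟩
  rw [mulT_natCast, ← hc, h1]

/-- every sequence with at least `L` terms has a zero-sum subsequence of length `n` -/
def P (n L : ℕ) : Prop :=
  ∀ (ι : Type) [Fintype ι] [DecidableEq ι] (f : ι → C n 5), L ≤ Fintype.card ι →
    ∃ I : Finset ι, I.card = n ∧ ∑ i ∈ I, f i = 0

theorem P_step (hcap : ∀ D : Finset (C 3 5), IsCap D → D.card ≤ 45) (k L : ℕ)
    (h : P (3 ^ k) L) : P (3 ^ (k + 1)) (3 * L + 88) := by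
  intro ι _ _ f hL
  obtain ⟨T, hT, hdis⟩ := exists_triples hcap (fun i => fun j => redT k (f i j)) L univ
    (by rwa [Finset.card_univ])
  have hd : ∀ i : Fin L, ∃ d : C (3 ^ k) 5, (fun j => mulT k (d j)) = ∑ l ∈ T i, f l := by
    intro i
    have h1 : ∀ j : Fin 5, ∃ b, mulT k b = (∑ l ∈ T i, f l) j := by
      intro j
      apply exists_mulT
      have h2 := congrFun (hT i).2.2 j
      rw [Finset.sum_apply, Pi.zero_apply] at h2
      rw [Finset.sum_apply, map_sum]
      exact h2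
    choose d hd using h1
    exact ⟨d, funext hd⟩
  choose d hd using hd
  obtain ⟨J, hJc, hJ0⟩ := h (Fin L) d (by rw [Fintype.card_fin])
  refine ⟨J.biUnion T, ?_, ?_⟩
  · rw [Finset.card_biUnion (fun i _ j _ hij => hdis i j hij),
      Finset.sum_congr rfl (fun i _ => (hT i).2.1), Finset.sum_const, hJc, smul_eq_mul, pow_succ]
  · rw [Finset.sum_biUnion (fun i _ j _ hij => hdis i j hij),
      Finset.sum_congr rfl (fun i _ => (hd i).symm)]
    funext j
    rw [Finset.sum_apply, Pi.zero_apply, ← map_sum, ← Finset.sum_apply, hJ0, Pi.zero_apply,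
      map_zero]

theorem P_all (hcap : ∀ D : Finset (C 3 5), IsCap D → D.card ≤ 45) (h9 : P 9 360) (j : ℕ) :
    P (3 ^ (j + 2)) (404 * 3 ^ j - 44) := by
  induction j with
  | zero => exact h9
  | succ j ih =>
    have h := P_step hcap (j + 2) _ ih
    have e : 3 * (404 * 3 ^ j - 44) + 88 = 404 * 3 ^ (j + 1) - 44 := by
      have : 1 ≤ 3 ^ j := Nat.one_le_pow _ _ (by norm_num)
      rw [pow_succ]
      omega
    rw [e] at h
    exact h

/-- the case of exponent nine from the non-existence of a good lift -/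
theorem P_nine (hcap : ∀ D : Finset (C 3 5), IsCap D → D.card ≤ 45)
    (hu : ∀ D : Finset (Fin 5 → ZMod 3), IsCap D → D.card = 45 → ∃ g : Aff 5, g.img D = cap45)
    (hno : ∀ x : W5 → (Fin 5 → ZMod 9), ¬ GoodLift cap45 x) : P 9 360 := by
  intro ι _ _ f hL
  by_contra hcon
  push Not at hcon
  obtain ⟨e⟩ : Nonempty (Fin (8 * 45) ↪ ι) :=
    Function.Embedding.nonempty_of_card_le (by rw [Fintype.card_fin]; exact hL)
  obtain ⟨D, hD45, hD, x, hx, hb⟩ := structure_concrete hcap (fun i => f (e i)) (by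
    intro I hI h0
    refine hcon (I.map e) (by rw [Finset.card_map]; exact hI) ?_
    rw [Finset.sum_map]
    exact h0)
  obtain ⟨g, hg⟩ := hu D hD hD45
  have hy := GoodLift.map g (⟨hx, hb⟩ : GoodLift D x)
  rw [hg] at hy
  exact hno _ hy

/-! ### multisets -/

theorem P_multiset {n L : ℕ} (h : P n L) (S : Multiset (C n 5)) (hS : L ≤ Multiset.card S) :
    ∃ T ≤ S, Multiset.card T = n ∧ T.sum = 0 := by
  classical
  obtain ⟨l, rfl⟩ := Quot.exists_rep S
  change L ≤ l.length at hS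
  obtain ⟨I, hI, h0⟩ := h (Fin l.length) (fun i => l.get i) (by rwa [Fintype.card_fin])
  refine ⟨I.val.map (fun i => l.get i), ?_, ?_, ?_⟩
  · have h1 : (Finset.univ : Finset (Fin l.length)).val.map (fun i => l.get i) =
        ((l : List _) : Multiset (C n 5)) := by
      rw [Fin.univ_val_map]
      exact congrArg _ (List.ofFn_get l)
    calc I.val.map (fun i => l.get i)
        ≤ (Finset.univ : Finset (Fin l.length)).val.map (fun i => l.get i) :=
          Multiset.map_le_map (Finset.val_le_iff.mpr (Finset.subset_univ I))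
      _ = _ := h1
  · rw [Multiset.card_map]
    exact hI
  · exact h0

theorem isHarborth_of (hcap : ∀ D : Finset (C 3 5), IsCap D → D.card ≤ 45) :
    IsHarborth (C 3 5) 46 := by
  constructor
  · intro S hS
    rw [exponent_C]
    by_contra hno
    push Not at hno
    have := hcap S (fun T hT h3 => hno T hT h3)
    omega
  · intro l hl
    by_contra hlt
    push Not at hlt
    obtain ⟨T, hT, h3, h0⟩ := hl cap45 (by rw [cap45_card]; omega)
    rw [exponent_C] at h3
    exact cap45_isCap T hT h3 h0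

theorem exists_isEGZ_of {n L : ℕ} (h : P n L) : ∃ s, IsEGZ (C n 5) s ∧ s ≤ L := by
  have hmem : L ∈ {l : ℕ | ∀ S : Multiset (C n 5), l ≤ Multiset.card S →
      ∃ T ≤ S, Multiset.card T = AddMonoid.exponent (C n 5) ∧ T.sum = 0} := by
    intro S hS
    rw [exponent_C]
    exact P_multiset h S hS
  exact ⟨_, ⟨Nat.sInf_mem ⟨L, hmem⟩, fun l hl => Nat.sInf_le hl⟩, Nat.sInf_le hmem⟩

/-- the main theorem from the two computational inputs -/
theorem main_of (hu : ∀ D : Finset (Fin 5 → ZMod 3), IsCap D → D.card = 45 →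
      ∃ g : Aff 5, g.img D = cap45)
    (hno : ∀ x : W5 → (Fin 5 → ZMod 9), ¬ GoodLift cap45 x) :
    IsHarborth (C 3 5) 46 ∧ ∀ k : ℕ, 2 ≤ k →
      ∃ s, IsEGZ (C (3 ^ k) 5) s ∧ s + 3 ^ (k - 2) ≤ (46 - 1) * (3 ^ k - 1) + 1 := by
  have hcap := cap_le hu
  refine ⟨isHarborth_of hcap, fun k hk => ?_⟩
  obtain ⟨j, rfl⟩ := Nat.exists_eq_add_of_le' hk
  obtain ⟨s, hs, hle⟩ := exists_isEGZ_of (P_all hcap (P_nine hcap hu hno) j)
  refine ⟨s, hs, ?_⟩
  have h1 : 1 ≤ 3 ^ j := Nat.one_le_pow _ _ (by norm_num)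
  have h2 : 3 ^ (j + 2) = 9 * 3 ^ j := by rw [pow_add]; ring
  rw [Nat.add_sub_cancel, h2]
  omega

end Pool.Agent.H21.EGZI
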